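import Pool.Agent.H.MP_027d00_lc.gen.Few

set_option autoImplicit false

namespace Pool.Agent.Results.MP_027d00_lc.FewOtherGates

open Pool.Agent.H.MP_8a52c3_lc

/-- Near-optimal lower bounds for circuits of AND and OR gates with few other gates.  For `m ≥ 2`
and `t ≥ 1000` let `n = Fintype.card (Var m t)` be the number of variables of the explicit function
`family m t` (directed reachability in explicit layered graphs whose edges are the variables), and
put `X = log₂ n - 10 (log₂ n)^(m / (m + 1))`.  Let `C` be a circuit that computes `family m t`, with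
at most `(log₂ n)^(2 m / (m + 1)) / 2` AND and OR gates on each path and with `R` other gates, which
compute arbitrary Boolean functions, have total fan-in `I`, and lie at most `k` on each path to the
output.  Then `X ≤ I`, `X ≤ k log₂ (1 + I / k)` and `X ≤ R + log₂ (I + 1)`. -/
theorem result (m t : ℕ) (hm : 2 ≤ m) (ht : 1000 ≤ t) (s : ℕ)
    (C : Circuit (Pool.Agent.H.MP_027d00_lc.Var m t) s)
    (hC : ∀ x : Pool.Agent.H.MP_027d00_lc.Var m t → Bool,
      C.eval x = true ↔ Pool.Agent.H.MP_027d00_lc.family m t x)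
    (hD : (C.binDepth : ℝ) ≤ Real.logb 2 (Fintype.card (Pool.Agent.H.MP_027d00_lc.Var m t)) ^
      ((2 * (m : ℝ)) / ((m : ℝ) + 1)) / 2) :
    Real.logb 2 (Fintype.card (Pool.Agent.H.MP_027d00_lc.Var m t)) -
      10 * Real.logb 2 (Fintype.card (Pool.Agent.H.MP_027d00_lc.Var m t)) ^
        ((m : ℝ) / ((m : ℝ) + 1)) ≤ (C.otherFan : ℝ) ∧
    Real.logb 2 (Fintype.card (Pool.Agent.H.MP_027d00_lc.Var m t)) -
      10 * Real.logb 2 (Fintype.card (Pool.Agent.H.MP_027d00_lc.Var m t)) ^
        ((m : ℝ) / ((m : ℝ) + 1)) ≤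
        (C.otherDepth : ℝ) * Real.logb 2 (1 + (C.otherFan : ℝ) / (C.otherDepth : ℝ)) ∧
    Real.logb 2 (Fintype.card (Pool.Agent.H.MP_027d00_lc.Var m t)) -
      10 * Real.logb 2 (Fintype.card (Pool.Agent.H.MP_027d00_lc.Var m t)) ^
        ((m : ℝ) / ((m : ℝ) + 1)) ≤
        (C.numOther : ℝ) + Real.logb 2 ((C.otherFan : ℝ) + 1) := by
  obtain ⟨h1, h2⟩ := family_other hm ht C hC hD
  have h3 := family_log hm ht h1
  have h4 := family_log hm ht h2
  rw [Real.logb_pow, Real.logb_self_eq_one (by norm_num), mul_one] at h3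
  rw [Real.logb_pow] at h4
  exact ⟨h3, h4, family_others hm ht C hC hD⟩

end Pool.Agent.Results.MP_027d00_lc.FewOtherGates
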