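import Pool.Agent.H.MP_027d00_lc.iter.Main
import Pool.Agent.H.MP_027d00_lc.iter.Few
import Pool.Agent.H.MP_027d00_lc.iter.Super

/-!
# The KRW bound for the iterated multiplexer over an arbitrary function, few reads

`F m g k` is the `k`-fold iterated selection (multiplexer) function over `g : {0,1}^n → {0,1}`:
`F_0 = g`, and an input of `F_(k+1)` consists of one data bit `p_z` for every address `z ∈ {0,1}^m`
(variables of level `k + 1`) and of `m` inputs `u_1, ..., u_m` of `F_k`; the value is `p_z` for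
`z = (F_k(u_1), ..., F_k(u_m))`.

* `tradeoff`: the trade-off between the numbers `s_j` of leaves of level `j`, for every formula.
* `result`: if the data of level `j` are read at most `D R^(k+1-j)` times (`R = 2^m`), then there
  are about `R^k L(g)` leaves of level `0`: the KRW lower bound.
* `superlog`: for `g` = one bit and `k = log_3 m / 4` levels, formulas that read the data of level `j`
  at most `2^(√m) R^(k+1-j)` times have size at least `N^(k/2)`, `N` the number of variables.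
-/

set_option autoImplicit false

open Finset

namespace Pool.Agent.Results.MP_027d00_lc.IteratedSelection

open Pool.Agent.H.MP_027d00_lc.UComp Pool.Agent.H.MP_027d00_lc.Iter

/-- **The trade-off (M), for every formula.** There is a constant `K` such that for all `m ≥ 1`,
`k`, `n` and all non-constant `g : {0,1}^n → {0,1}`, every de Morgan formula `Φ` for the iterated
selection function `F m g k` satisfies, with `R = 2^m` and `s_j` the number of its leaves of level
`j`, `R^((3^(k+1)-3)/2) L(g) ≤ K n³ m⁶ (K m)^((3^k-1)/2) s_0 s_1² s_2⁶ ⋯ s_k^(2·3^(k-1))`. -/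
theorem tradeoff : ∃ K : ℕ, ∀ (m n k : ℕ) (g : (Fin n → Bool) → Bool) (Φ : Fm (Var m (Fin n) k)),
    1 ≤ m → (∃ x y, g x ≠ g y) → (∀ x, Φ.eval x = F m g k x) →
    (2 ^ m) ^ ((3 ^ (k + 1) - 3) / 2) * fsize g ≤
      K * n ^ 3 * m ^ 6 * (K * m) ^ ((3 ^ k - 1) / 2) * leaves 0 Φ *
        ∏ j ∈ range k, leaves (j + 1) Φ ^ (2 * 3 ^ j) := by
  refine ⟨4 * K₀, fun m n k g Φ hm hg hΦ => (main hm g hg k Φ hΦ).trans ?_⟩
  have h1 : (44154880 * m) ^ ((3 ^ k - 1) / 2) ≤ (4 * K₀ * m) ^ ((3 ^ k - 1) / 2) :=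
    Nat.pow_le_pow_left (Nat.mul_le_mul_right _ (by norm_num [K₀])) _
  gcongr

/-- The constant. -/
noncomputable def K : ℕ := Classical.choose tradeoff

/-- **The KRW bound for the iterated multiplexer over an arbitrary function, few reads.** There is
a constant `K` such that for all `m ≥ 1`, `n`, `k`, `D` and all non-constant
`g : {0,1}^n → {0,1}`, with `R = 2^m`: every de Morgan formula for `F m g k` whose number `s_j` of
leaves of level `j` is at most `D R^(k+1-j)` for `1 ≤ j ≤ k` satisfies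
`R^k L(g) ≤ K n³ m⁶ (K m D²)^((3^k-1)/2) s_0`. (The natural formula has `s_j ≤ 2^k R^(k+1-j)` and
`s_0 ≤ 2^k R^k L(g)`.) -/
theorem result : ∃ K : ℕ, ∀ (m n k D : ℕ) (g : (Fin n → Bool) → Bool)
    (Φ : Fm (Var m (Fin n) k)),
    1 ≤ m → (∃ x y, g x ≠ g y) → (∀ x, Φ.eval x = F m g k x) →
    (∀ j < k, leaves (j + 1) Φ ≤ D * (2 ^ m) ^ (k - j)) →
    (2 ^ m) ^ k * fsize g ≤
      K * n ^ 3 * m ^ 6 * (K * m * D ^ 2) ^ ((3 ^ k - 1) / 2) * leaves 0 Φ :=
  ⟨K, fun m n k _ g Φ hm hg hΦ hD =>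
    Pool.Agent.H.MP_027d00_lc.Iter.few_reads (by positivity) (fun j => leaves j Φ)
      (Classical.choose_spec tradeoff m n k g Φ hm hg hΦ) hD⟩

/-- Superpolynomial size: `k = lev m = ⌊⌊log_3 m⌋ / 4⌋` levels over one bit. -/
theorem superlog : ∃ m₀ : ℕ, ∀ m : ℕ, m₀ ≤ m → ∀ Φ : Fm (Var m (Fin 1) (lev m)),
    (∀ x, Φ.eval x = F m (fun x => x 0) (lev m) x) →
    (∀ j < lev m, leaves (j + 1) Φ ≤ 2 ^ Nat.sqrt m * (2 ^ m) ^ (lev m - j)) →
    Fintype.card (Var m (Fin 1) (lev m)) ^ lev m ≤ leaves 0 Φ ^ 2 := by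
  obtain ⟨m₀, h81, h⟩ := super_poly K
  refine ⟨m₀, fun m hm Φ hΦ hD => ?_⟩
  have hm1 : 1 ≤ m := by omega
  have hg : ∃ x y : Fin 1 → Bool, (fun x : Fin 1 → Bool => x 0) x ≠
      (fun x : Fin 1 → Bool => x 0) y := ⟨fun _ => true, fun _ => false, by simp⟩
  have h1 := Classical.choose_spec tradeoff m 1 (lev m) (fun x => x 0) Φ hm1 hg hΦ
  have h2 : 1 ≤ fsize (fun x : Fin 1 → Bool => x 0) := fsize_pos hg
  have h3 : (2 ^ m) ^ ((3 ^ (lev m + 1) - 3) / 2) ≤ (K * m ^ 6) *
      (K * m) ^ ((3 ^ lev m - 1) / 2) * leaves 0 Φ *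
      ∏ j ∈ range (lev m), leaves (j + 1) Φ ^ (2 * 3 ^ j) := by
    calc (2 ^ m) ^ ((3 ^ (lev m + 1) - 3) / 2)
        ≤ (2 ^ m) ^ ((3 ^ (lev m + 1) - 3) / 2) * fsize (fun x : Fin 1 → Bool => x 0) :=
          Nat.le_mul_of_pos_right _ h2
      _ ≤ _ := by
          refine h1.trans (le_of_eq ?_)
          simp only [K]
          ring
  refine h m hm (fun j => leaves j Φ) h3 hD _ ?_
  have h4 := card_le m (Fin 1) (2 ^ m) le_rfl (by simpa using Nat.one_le_two_pow) (lev m)
  rw [mul_comm]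
  exact h4

end Pool.Agent.Results.MP_027d00_lc.IteratedSelection
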